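import Pool.Agent.R712.SUFive

/-!
# Involution length of `SU(n)`

For `n ≥ 3` every element of `SU(n, ℂ)` is a product of five involutions of `SU(n, ℂ)`; if
moreover `n` is not congruent to `2` modulo `4`, it is a product of four.
-/

set_option autoImplicit false

namespace Pool.Agent.Results.MP_ca7eb7_al.FiveInvolutions

open Matrix Pool.R712.SU

theorem lift_inv {n : ℕ} {B : Matrix (Fin n) (Fin n) ℂ} (h : IsInv B) :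
    ∃ B' : specialUnitaryGroup (Fin n) ℂ, B' ^ 2 = 1 ∧ (B' : Matrix (Fin n) (Fin n) ℂ) = B := by
  refine ⟨⟨B, mem_specialUnitaryGroup_iff.mpr ⟨h.1, h.2.1⟩⟩, ?_, rfl⟩
  apply Subtype.ext
  show B ^ 2 = 1
  rw [pow_two, h.2.2]

/-- Q2 (yes), and Q1 for `n` not congruent to `2` modulo `4` (yes). -/
theorem result (n : ℕ) (hn : 3 ≤ n) (A : specialUnitaryGroup (Fin n) ℂ) :
    (∃ B₁ B₂ B₃ B₄ B₅ : specialUnitaryGroup (Fin n) ℂ,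
      B₁ ^ 2 = 1 ∧ B₂ ^ 2 = 1 ∧ B₃ ^ 2 = 1 ∧ B₄ ^ 2 = 1 ∧ B₅ ^ 2 = 1 ∧
        A = B₁ * B₂ * B₃ * B₄ * B₅) ∧
    (n % 4 ≠ 2 → ∃ B₁ B₂ B₃ B₄ : specialUnitaryGroup (Fin n) ℂ,
      B₁ ^ 2 = 1 ∧ B₂ ^ 2 = 1 ∧ B₃ ^ 2 = 1 ∧ B₄ ^ 2 = 1 ∧ A = B₁ * B₂ * B₃ * B₄) := by
  obtain ⟨hu, hd⟩ := mem_specialUnitaryGroup_iff.mp A.2
  obtain ⟨h5, h4⟩ := main hn (A : Matrix (Fin n) (Fin n) ℂ) hu hd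
  constructor
  · obtain ⟨C₁, D₁, hC₁, ⟨C₂, D₂, hC₂, ⟨C₃, D₃, hC₃, ⟨C₄, D₄, hC₄, ⟨C₅, D₅, hC₅, hD₅, e₅⟩, e₄⟩,
      e₃⟩, e₂⟩, e₁⟩ := h5
    have hD : D₅ = 1 := hD₅
    obtain ⟨B₁, k₁, m₁⟩ := lift_inv hC₁
    obtain ⟨B₂, k₂, m₂⟩ := lift_inv hC₂
    obtain ⟨B₃, k₃, m₃⟩ := lift_inv hC₃
    obtain ⟨B₄, k₄, m₄⟩ := lift_inv hC₄
    obtain ⟨B₅, k₅, m₅⟩ := lift_inv hC₅
    refine ⟨B₁, B₂, B₃, B₄, B₅, k₁, k₂, k₃, k₄, k₅, ?_⟩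
    apply Subtype.ext
    show (A : Matrix (Fin n) (Fin n) ℂ) = (B₁ : Matrix (Fin n) (Fin n) ℂ) * B₂ * B₃ * B₄ * B₅
    rw [e₁, e₂, e₃, e₄, e₅, hD, m₁, m₂, m₃, m₄, m₅, mul_one]
    simp only [Matrix.mul_assoc]
  · intro hn4
    obtain ⟨C₁, D₁, hC₁, ⟨C₂, D₂, hC₂, ⟨C₃, D₃, hC₃, ⟨C₄, D₄, hC₄, hD₄, e₄⟩, e₃⟩, e₂⟩, e₁⟩ :=
      h4 hn4
    have hD : D₄ = 1 := hD₄
    obtain ⟨B₁, k₁, m₁⟩ := lift_inv hC₁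
    obtain ⟨B₂, k₂, m₂⟩ := lift_inv hC₂
    obtain ⟨B₃, k₃, m₃⟩ := lift_inv hC₃
    obtain ⟨B₄, k₄, m₄⟩ := lift_inv hC₄
    refine ⟨B₁, B₂, B₃, B₄, k₁, k₂, k₃, k₄, ?_⟩
    apply Subtype.ext
    show (A : Matrix (Fin n) (Fin n) ℂ) = (B₁ : Matrix (Fin n) (Fin n) ℂ) * B₂ * B₃ * B₄
    rw [e₁, e₂, e₃, e₄, hD, m₁, m₂, m₃, m₄, mul_one]
    simp only [Matrix.mul_assoc]

end Pool.Agent.Results.MP_ca7eb7_al.FiveInvolutions
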